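import Pool.Agent.Y985.ME.Stm
import Pool.Agent.TH992.T.Up

/-!
The time spent in the boxes: union bound (job ME-OCC).
-/

set_option autoImplicit false

namespace Pool.Agent.Y337.ME

open H974 Finset Filter Topology H342P H984P H984N TH992.T Pool.Agent.Y985.ME

/-- the time spent in a ball is at most the number in a box which contains the ball -/
theorem loc_le {D : Dm} (hD : D.Ok) {F : Finset Edg} (hF : F ⊆ D.edges) {s : ℕ} {b c : ℤ}
    {v : Vtx} {r : ℝ} (hb : ∀ w : Vtx, ((sd w v : ℤ) : ℝ) ≤ r → w ∈ Bq b c s) :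
    (((Finset.range (D.len F + 1)).filter
        (fun t => ((sd (D.walk F t).1 v : ℤ) : ℝ) ≤ r)).card : ℝ) ≤ Nb (xs D) s b c F := by
  have e := Moments_sum hD hF (fun σ => ind (((sd σ.1 v : ℤ) : ℝ) ≤ r))
  have e1 : (((Finset.range (D.len F + 1)).filter
        (fun t => ((sd (D.walk F t).1 v : ℤ) : ℝ) ≤ r)).card : ℝ) =
      ∑ i ∈ Finset.range (D.len F + 1), ind (((sd (D.walk F i).1 v : ℤ) : ℝ) ≤ r) := by
    rw [card_filter]
    push_cast
    refine sum_congr rfl fun i _ => ?_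
    split_ifs with h
    · rw [ind_of h]
    · rw [ind_not_of h]
  rw [e1, e]
  unfold Dm.states Nb
  rw [sum_product]
  have hterm : ∀ w ∈ Finset.Icc D.l D.r ×ˢ Finset.Icc 0 D.h,
      ∑ q : Q4, ind (D.Vis F (w, q)) * ind (((sd (w, q).1 v : ℤ) : ℝ) ≤ r) ≤
        if w ∈ Bq b c s then xs D s w F else 0 := by
    intro w hw
    rw [mem_product, mem_Icc, mem_Icc] at hw
    split_ifs with hwB
    · unfold xs
      refine sum_le_sum fun q _ => ?_
      rw [if_pos (xs_mem' q hw)]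
      refine (mul_le_of_le_one_right (ind_nonneg _) (ind_le_one _)).trans ?_
      refine ind_mono fun h => ?_
      rcases le_or_gt (min (s : ℤ) (D.bd w)) 0 with hm | hm
      · exact Or.inl hm
      · exact Or.inr (vis_two hD hF h hm (min_le_right _ _))
    · refine le_of_eq (sum_eq_zero fun q _ => ?_)
      have h1 : ¬ (((sd (w, q).1 v : ℤ) : ℝ) ≤ r) := fun h => hwB (hb w h)
      rw [ind_not_of h1, mul_zero]
  refine (sum_le_sum hterm).trans ?_
  rw [← sum_filter]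
  refine sum_le_sum_of_subset_of_nonneg ?_ fun w _ _ => ?_
  · intro w hw
    exact (mem_filter.1 hw).2
  · unfold xs
    refine sum_nonneg fun q _ => ?_
    split_ifs
    · exact ind_nonneg _
    · exact le_refl _

/-- the coordinates of a vertex near another one -/
theorem sd_le_iff {w v : Vtx} {r : ℝ} {m : ℕ} (hm : r ≤ m) (h : ((sd w v : ℤ) : ℝ) ≤ r) :
    (v.1 - m ≤ w.1 ∧ w.1 ≤ v.1 + m) ∧ v.2 - m ≤ w.2 ∧ w.2 ≤ v.2 + m := by
  have h1 : sd w v ≤ (m : ℤ) := by exact_mod_cast h.trans hm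
  unfold sd at h1
  have h2 := (le_max_left _ _).trans h1
  have h3 := (le_max_right _ _).trans h1
  rw [abs_le] at h2 h3
  omega

/-- the index of the box -/
theorem idx {x : ℤ} {m : ℕ} (hm : 1 ≤ m) :
    (m : ℤ) * (x / m - 1) ≤ x - m ∧ x + m < (m : ℤ) * (x / m - 1) + (4 * m : ℕ) := by
  have hm' : (0 : ℤ) < m := by exact_mod_cast hm
  have h1 := Int.mul_ediv_add_emod x m
  have h2 := Int.emod_nonneg x hm'.ne'
  have h3 := Int.emod_lt_of_pos x hm'
  have e : (m : ℤ) * (x / m - 1) = m * (x / m) - m := by ring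
  rw [e]
  push_cast
  constructor <;> omega

theorem idx_mem {x a b : ℤ} {m : ℕ} (hm : 1 ≤ m) (h1 : a - m ≤ x) (h2 : x ≤ b + m) :
    x / m ∈ Finset.Icc (a / m - 1) (b / m + 1) := by
  have hm' : (0 : ℤ) < m := by exact_mod_cast hm
  rw [mem_Icc]
  constructor
  · have h3 : (a - m) / (m : ℤ) = a / m - 1 := by
      have := Int.add_mul_ediv_right a (-1) hm'.ne'
      rw [show a + -1 * (m : ℤ) = a - m by ring] at this
      rw [this]; ring
    rw [← h3]
    exact Int.ediv_le_ediv hm' h1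
  · have h3 : (b + m) / (m : ℤ) = b / m + 1 := by
      have := Int.add_mul_ediv_right b 1 hm'.ne'
      rw [show b + 1 * (m : ℤ) = b + m by ring] at this
      exact this
    rw [← h3]
    exact Int.ediv_le_ediv hm' h2

theorem idx_card {a b : ℤ} {m : ℕ} {n r : ℝ} (hr : 1 ≤ r) (hrm : r ≤ m) (hrn : r ≤ n)
    (hab : a ≤ b) (h : ((b - a : ℤ) : ℝ) ≤ n) :
    ((Finset.Icc (a / m - 1) (b / m + 1)).card : ℝ) ≤ 5 * (n / r) := by
  have hm0 : (0 : ℝ) < m := by linarith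
  have hm' : (0 : ℤ) < m := by exact_mod_cast hm0
  have h1 : a / (m : ℤ) ≤ b / m := Int.ediv_le_ediv hm' hab
  have e : ((Finset.Icc (a / (m : ℤ) - 1) (b / m + 1)).card : ℤ) = b / m - a / m + 3 := by
    rw [Int.card_Icc]
    omega
  have e' : ((Finset.Icc (a / (m : ℤ) - 1) (b / m + 1)).card : ℝ) =
      ((b / (m : ℤ) : ℤ) : ℝ) - ((a / (m : ℤ) : ℤ) : ℝ) + 3 := by exact_mod_cast e
  rw [e']
  have h2 : ((b / (m : ℤ) : ℤ) : ℝ) ≤ b / m := by
    rw [le_div_iff₀ hm0]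
    have := Int.ediv_mul_le b hm'.ne'
    exact_mod_cast this
  have h3 : (a : ℝ) / m < ((a / (m : ℤ) : ℤ) : ℝ) + 1 := by
    rw [div_lt_iff₀ hm0]
    have := Int.lt_ediv_add_one_mul_self a hm'
    exact_mod_cast this
  have h4 : (b : ℝ) / m - a / m ≤ n / r := by
    rw [← sub_div]
    have h5 : (b : ℝ) - a ≤ n := by exact_mod_cast h
    have hn : 0 ≤ n := by linarith
    calc ((b : ℝ) - a) / m ≤ n / m := by gcongr
      _ ≤ n / r := by gcongr
  have h6 : 1 ≤ n / r := by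
    rw [le_div_iff₀ (by linarith)]
    linarith
  linarith

theorem occ {C : ℝ} (hC : 0 < C) (hU : TwoUp C (1/4)) : S_OCC := by
  classical
  obtain ⟨l, hl, h⟩ := tail1 (a := 1/4) (C0 := 4 * (C + 1) * (1 + 8 * (1 + 1 / (1 - 1/4))))
    (by norm_num) (by norm_num) 4 (by positivity)
  refine ⟨64 * l, 225, by positivity, by norm_num, fun D n r u hD h1 h2 hr hrn hu => ?_⟩
  obtain ⟨m, hm⟩ : ∃ m : ℕ, m = ⌈r⌉₊ := ⟨_, rfl⟩
  have hrm : r ≤ m := by rw [hm]; exact Nat.le_ceil r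
  have hm1 : 1 ≤ m := by
    have : (1 : ℝ) ≤ m := hr.trans hrm
    exact_mod_cast this
  have hm2 : (m : ℝ) ≤ 2 * r := by
    have : (m : ℝ) < r + 1 := by rw [hm]; exact Nat.ceil_lt_add_one (by linarith)
    linarith
  have hnr : 1 ≤ n / r := by
    rw [le_div_iff₀ (by linarith)]
    linarith
  -- the case `u = 0`
  rcases eq_or_lt_of_le hu with hu0 | hu0
  · refine (Pr_le_one two_ok _ _).trans ?_
    rw [← hu0]
    have : (1 : ℝ) ≤ (n / r) ^ 2 := one_le_pow₀ hnr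
    simp only [zero_div]
    norm_num
    linarith
  obtain ⟨J, hJ⟩ : ∃ J : Finset (ℤ × ℤ), J = Finset.Icc (D.l / (m : ℤ) - 1) (D.r / m + 1) ×ˢ
    Finset.Icc (0 / (m : ℤ) - 1) (D.h / m + 1) := ⟨_, rfl⟩
  have hJc : (J.card : ℝ) ≤ 25 * (n / r) ^ 2 := by
    rw [hJ, card_product]
    push_cast
    have g1 := idx_card (a := D.l) (b := D.r) hr hrm hrn (hD.l_neg.trans hD.r_pos).le h1
    have g2 := idx_card (a := 0) (b := D.h) hr hrm hrn hD.h_pos.le (by simpa using h2)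
    calc _ ≤ (5 * (n / r)) * (5 * (n / r)) := by gcongr
      _ = _ := by ring
  have hs0 : (0 : ℝ) < (4 * m : ℕ) := by positivity
  have hbox : ∀ j ∈ J, P D.edges (fun F => u * r ^ (7/4 : ℝ) ≤
      Nb (xs D) (4 * m) (m * (j.1 - 1)) (m * (j.2 - 1)) F) ≤
        9 * Real.exp (-(u / (64 * l)) ^ 8) := by
    intro j _
    have key := h (fun _ => (1/2:ℝ)) D.edges (xs D) (xs_fam hC hU D) (4 * m)
      (m * (j.1 - 1)) (m * (j.2 - 1)) (u / 64) (by omega) (by positivity)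
    have e1 : ((u / 64) / l) ^ (2 / (1/4) : ℝ) = (u / (64 * l)) ^ (8 : ℕ) := by
      rw [show (2 / (1/4) : ℝ) = ((8 : ℕ) : ℝ) by norm_num, Real.rpow_natCast]
      congr 1
      field_simp
    rw [e1] at key
    refine le_trans ?_ key
    refine Pr_mono two_ok fun F _ hx => ?_
    unfold Yb
    rw [le_div_iff₀ (Real.rpow_pos_of_pos hs0 _)]
    have e2 : (2 - 1/4 : ℝ) = 7/4 := by norm_num
    rw [e2]
    have h3 : ((4 * m : ℕ) : ℝ) ^ (7/4 : ℝ) ≤ 64 * r ^ (7/4 : ℝ) := by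
      have h4 : ((4 * m : ℕ) : ℝ) ≤ 8 * r := by push_cast; linarith
      calc ((4 * m : ℕ) : ℝ) ^ (7/4 : ℝ) ≤ (8 * r) ^ (7/4 : ℝ) :=
            Real.rpow_le_rpow hs0.le h4 (by norm_num)
        _ = 8 ^ (7/4 : ℝ) * r ^ (7/4 : ℝ) := Real.mul_rpow (by norm_num) (by linarith)
        _ ≤ 64 * r ^ (7/4 : ℝ) := by
          refine mul_le_mul_of_nonneg_right ?_ (Real.rpow_nonneg (by linarith) _)
          calc (8 : ℝ) ^ (7/4 : ℝ) ≤ 8 ^ (2 : ℝ) :=
                Real.rpow_le_rpow_of_exponent_le (by norm_num) (by norm_num)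
            _ = 64 := by norm_num
    calc u / 64 * ((4 * m : ℕ) : ℝ) ^ (7/4 : ℝ) ≤ u / 64 * (64 * r ^ (7/4 : ℝ)) :=
          mul_le_mul_of_nonneg_left h3 (by positivity)
      _ = u * r ^ (7/4 : ℝ) := by ring
      _ ≤ _ := hx
  have hmain : P D.edges (fun F => ∃ v : Vtx, u * r ^ (7/4 : ℝ) ≤
      (((Finset.range (D.len F + 1)).filter
        (fun t => ((sd (D.walk F t).1 v : ℤ) : ℝ) ≤ r)).card : ℝ)) ≤
      P D.edges (fun F => ∃ j ∈ J, u * r ^ (7/4 : ℝ) ≤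
        Nb (xs D) (4 * m) (m * (j.1 - 1)) (m * (j.2 - 1)) F) := by
    refine Pr_mono two_ok fun F hF hx => ?_
    obtain ⟨v, hv⟩ := hx
    have hpos : 0 < u * r ^ (7/4 : ℝ) := mul_pos hu0 (Real.rpow_pos_of_pos (by linarith) _)
    have hc : 0 < ((Finset.range (D.len F + 1)).filter
        (fun t => ((sd (D.walk F t).1 v : ℤ) : ℝ) ≤ r)).card := by
      have := hpos.trans_le hv
      exact_mod_cast this
    obtain ⟨t, ht⟩ := card_pos.1 hc
    have ht2 := (mem_filter.1 ht).2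
    obtain ⟨⟨a1, a2⟩, a3, a4⟩ := sd_le_iff hrm ht2
    obtain ⟨⟨b1, b2⟩, b3, b4⟩ := walk_in hD hF t
    refine ⟨(v.1 / m, v.2 / m), ?_, hv.trans ?_⟩
    · rw [hJ, mem_product]
      exact ⟨idx_mem hm1 (by omega) (by omega), idx_mem hm1 (by omega) (by omega)⟩
    · refine loc_le hD hF fun w hw => ?_
      obtain ⟨⟨c1, c2⟩, c3, c4⟩ := sd_le_iff hrm hw
      have d1 := idx (x := v.1) hm1
      have d2 := idx (x := v.2) hm1
      rw [mem_Bq]
      refine ⟨⟨d1.1.trans c1, lt_of_le_of_lt c2 d1.2⟩, d2.1.trans c3, lt_of_le_of_lt c4 d2.2⟩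
  refine hmain.trans ((Pr_exists_le two_ok D.edges J _).trans ?_)
  refine (sum_le_sum hbox).trans ?_
  rw [sum_const, nsmul_eq_mul]
  calc (J.card : ℝ) * (9 * Real.exp (-(u / (64 * l)) ^ 8)) ≤
        (25 * (n / r) ^ 2) * (9 * Real.exp (-(u / (64 * l)) ^ 8)) :=
        mul_le_mul_of_nonneg_right hJc (by positivity)
    _ = 225 * (n / r) ^ 2 * Real.exp (-(u / (64 * l)) ^ 8) := by ring

end Pool.Agent.Y337.ME
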